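import Pool.Agent.H63.WT.TA

/-!
# Row QDZ: the square of the fundamental ideal dies in quadratic extensions
-/

set_option autoImplicit false

open Polynomial Matrix Pool.Agent.H32.QC Pool.Agent.H63.WT

namespace Pool.Agent.H15.WT

lemma sn_one {F : Type} [Field F] {a : F} (ha : a ≠ 0) :
    SN (fun _ _ : Fin 1 => a : Matrix (Fin 1) (Fin 1) F) := by
  refine ⟨?_, ?_⟩
  · ext i j
    rfl
  · simpa [Matrix.det_unique] using ha

lemma exists_sqrt (F E : Type) [Field F] [Field E] [Algebra F E] (h2 : (2 : F) ≠ 0)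
    (hd : Module.finrank F E = 2) :
    ∃ (d : F) (s : E), ¬ IsSquare d ∧ algebraMap F E d = s ^ 2 := by
  have i0 : FiniteDimensional F E := Module.finite_of_finrank_pos (by rw [hd]; norm_num)
  have h2E : (2 : E) ≠ 0 := by
    intro h
    apply h2
    have : algebraMap F E 2 = 0 := by rw [map_ofNat]; exact h
    exact (map_eq_zero _).mp this
  obtain ⟨α, hα⟩ : ∃ α : E, α ∉ (algebraMap F E).range := by
    by_contra hcon
    push Not at hcon
    have h1 : Module.finrank F E = 1 := by
      rw [finrank_eq_one_iff_of_nonzero' (1 : E) one_ne_zero]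
      intro w
      obtain ⟨c, hc⟩ := hcon w
      exact ⟨c, by rw [Algebra.smul_def, mul_one]; exact hc⟩
    omega
  have hli : LinearIndependent F ![(1 : E), α] := by
    rw [LinearIndependent.pair_iff]
    intro s t hst
    have ht : t = 0 := by
      by_contra ht
      apply hα
      refine ⟨-(s / t), ?_⟩
      have ht' : algebraMap F E t ≠ 0 := (_root_.map_ne_zero _).mpr ht
      rw [Algebra.smul_def, Algebra.smul_def, mul_one] at hst
      rw [map_neg, map_div₀]
      field_simp
      linear_combination -hst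
    refine ⟨?_, ht⟩
    rw [ht, zero_smul, add_zero, Algebra.smul_def, mul_one] at hst
    exact (map_eq_zero _).mp hst
  have hspan := hli.span_eq_top_of_card_eq_finrank (by rw [Fintype.card_fin, hd])
  have hmem : α ^ 2 ∈ Submodule.span F (Set.range ![(1 : E), α]) := by
    rw [hspan]
    exact Submodule.mem_top
  rw [Matrix.range_cons, Matrix.range_cons, Matrix.range_empty, Set.union_empty,
    Set.singleton_union, Submodule.mem_span_pair] at hmem
  obtain ⟨a, b, hab⟩ := hmem
  rw [Algebra.smul_def, Algebra.smul_def, mul_one] at hab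
  refine ⟨b ^ 2 + 4 * a, 2 * α - algebraMap F E b, ?_, ?_⟩
  · rintro ⟨r, hr⟩
    have h3 : (2 * α - algebraMap F E b) ^ 2 = algebraMap F E r ^ 2 := by
      have h4 := congrArg (algebraMap F E) hr
      rw [map_add, map_mul, map_mul, map_pow, map_ofNat] at h4
      linear_combination h4 - 4 * hab
    apply hα
    rcases sq_eq_sq_iff_eq_or_eq_neg.mp h3 with h | h
    · refine ⟨(b + r) / 2, ?_⟩
      rw [map_div₀, map_add, map_ofNat]
      field_simp
      linear_combination -h
    · refine ⟨(b - r) / 2, ?_⟩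
      rw [map_div₀, map_sub, map_ofNat]
      field_simp
      linear_combination -h
  · rw [map_add, map_mul, map_pow, map_ofNat]
    linear_combination 4 * hab

theorem pf_QDZ (hIV : T_IV) (hPFI : T_PFI) (hONE : T_ONE) (hCLS : T_CLS) : T_QDZ := by
  intro F E _ _ _ hF hd f hf x hx
  have h2 : (2 : F) ≠ 0 := hF.1
  have h2E : (2 : E) ≠ 0 := by
    intro h
    apply h2
    have : algebraMap F E 2 = 0 := by rw [map_ofNat]; exact h
    exact (map_eq_zero _).mp this
  obtain ⟨hNI, hsq⟩ := hF.2 F inferInstance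
  by_cases hx0 : x = 0
  · rw [hx0, map_zero]
  obtain ⟨d, s, hds, hs⟩ := exists_sqrt F E h2 hd
  have hd0 : d ≠ 0 := by
    rintro rfl
    exact hds ⟨0, by ring⟩
  obtain ⟨N, hN, hN2⟩ := hNI d hd0 hds
  obtain ⟨z, hz⟩ : ∃ z : Fˣ, z ∉ N := by
    by_contra hcon
    push Not at hcon
    have : N = ⊤ := by
      ext y
      simp [hcon y]
    rw [this, Subgroup.index_top] at hN
    omega
  have hz2 : ¬ Sol d (z : F) := fun h => hz ((hN2 z).mpr h)
  have hp := hPFI F h2 d z hd0 z.ne_zero
  have hpne : pf d (z : F) ≠ 0 := fun h => hz2 (hp.2.mp h)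
  rw [(hIV F h2 hNI hsq).2.1 x (pf d z) hx hp.1 hx0 hpne]
  have hon : ∀ a : F, a ≠ 0 → f (on a) = on (algebraMap F E a) := by
    intro a ha
    rw [on, hf _ _ (sn_one ha)]
    rfl
  have hdz : d * (z : F) ≠ 0 := mul_ne_zero hd0 z.ne_zero
  have hE0 : algebraMap F E d ≠ 0 := (_root_.map_ne_zero _).mpr hd0
  have hE1 : algebraMap F E (z : F) ≠ 0 := (_root_.map_ne_zero _).mpr z.ne_zero
  have h5 : f (pf d (z : F)) = pf (algebraMap F E d) (algebraMap F E z) := by
    rw [pf, pf, map_add, map_sub, map_sub, hon _ one_ne_zero, hon _ hd0, hon _ z.ne_zero,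
      hon _ hdz, map_one, map_mul]
  rw [h5, (hPFI E h2E _ _ hE0 hE1).2]
  exact ⟨1, 0, s, Or.inl one_ne_zero, by rw [← hs]; ring⟩

end Pool.Agent.H15.WT
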