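import Pool.Agent.H63.WT.TA

/-!
# Row SEU: Euler's formula
-/

set_option autoImplicit false

open Polynomial Matrix Pool.Agent.H32.QC Pool.Agent.H63.WT

namespace Pool.Agent.H15.WT

lemma lam_small {F : Type} [Field F] {A g : F[X]} (hA : A.Monic)
    (hg : g.natDegree < A.natDegree) :
    Pool.Agent.H34.N6.lam A g = g.coeff (A.natDegree - 1) := by
  rw [Pool.Agent.H34.N6.lam, (Polynomial.modByMonic_eq_self_iff hA).mpr]
  exact Polynomial.degree_lt_degree hg

lemma gm_C {F : Type} [Field F] {A : F[X]} (hA : A.Monic) (c : F)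
    (i j : Fin A.natDegree) (h : (i : ℕ) + j < A.natDegree) :
    gm A (C c) i j = if (i : ℕ) + j = A.natDegree - 1 then c else 0 := by
  rw [gm, lam_small hA]
  · rw [Polynomial.coeff_C_mul_X_pow]
    simp only [eq_comm]
  · exact lt_of_le_of_lt (Polynomial.natDegree_C_mul_X_pow_le _ _) h

lemma gm_C_symm {F : Type} [Field F] (A : F[X]) (h : F[X]) : (gm A h).IsSymm := by
  ext i j
  simp only [Matrix.transpose_apply, gm, add_comm]

lemma gm_C_det {F : Type} [Field F] {A : F[X]} (hA : A.Monic) {c : F} (hc : c ≠ 0) :
    (gm A (C c)).det ≠ 0 := by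
  have h1 : ((gm A (C c)).submatrix (Fin.revPerm : Equiv.Perm (Fin A.natDegree)) id).det
      = c ^ A.natDegree := by
    rw [Matrix.det_of_isUpperTriangular]
    · rw [Finset.prod_congr rfl (fun i _ => ?_), Finset.prod_const, Finset.card_univ,
        Fintype.card_fin]
      rw [Matrix.submatrix_apply, id, gm_C hA]
      · rw [if_pos]
        simp only [Fin.revPerm_apply, Fin.val_rev]
        omega
      · simp only [Fin.revPerm_apply, Fin.val_rev]
        omega
    · intro i j hij
      rw [Matrix.submatrix_apply, id, gm_C hA]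
      · rw [if_neg]
        simp only [Fin.revPerm_apply, Fin.val_rev]
        have : (j : ℕ) < i := hij
        omega
      · simp only [Fin.revPerm_apply, Fin.val_rev]
        have : (j : ℕ) < i := hij
        omega
  rw [Matrix.det_permute] at h1
  intro h0
  rw [h0, mul_zero] at h1
  exact pow_ne_zero _ hc h1.symm

theorem pf_SEU (hCLS : T_CLS) : T_SEU := by
  intro F _ h2 A c hA hc
  have hSN : SN (gm A (C c)) := ⟨gm_C_symm A (C c), gm_C_det hA hc⟩
  obtain ⟨c1, c2, -, c4, -⟩ := hCLS F h2
  split_ifs with hev
  · obtain ⟨r, hr⟩ := hev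
    refine c1 _ _ hSN ⟨r, by rw [Fintype.card_fin, hr]; ring, ?_⟩
    refine ⟨fun i => Pi.single ⟨i, by omega⟩ 1, ?_, ?_⟩
    · rw [Fintype.linearIndependent_iff]
      intro g hg i
      have h := congrFun hg ⟨i, by omega⟩
      rw [Finset.sum_apply, Finset.sum_eq_single i] at h
      · simpa using h
      · intro j _ hj
        rw [Pi.smul_apply, Pi.single_apply, if_neg, smul_zero]
        intro h'
        apply hj
        have := congrArg Fin.val h'
        exact Fin.ext this.symm
      · intro h'
        exact absurd (Finset.mem_univ _) h'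
    · intro i j
      rw [Matrix.mulVec_single_one, single_one_dotProduct, Matrix.col_apply, gm_C hA, if_neg]
      · simp only
        omega
      · simp only
        omega
  · obtain ⟨r, hr⟩ := Nat.not_even_iff_odd.mp hev
    obtain ⟨B, hB, hBon⟩ : ∃ B : Matrix (Fin 1) (Fin 1) F, (∀ i j, B i j = c) ∧ on c = cls B :=
      ⟨fun _ _ => c, fun _ _ => rfl, rfl⟩
    have hSN1 : SN B := by
      refine ⟨?_, ?_⟩
      · ext i j
        rw [Matrix.transpose_apply, hB, hB]
      · rw [Matrix.det_unique, hB]
        exact hc
    have hSN2 : SN (-B) := by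
      refine ⟨?_, ?_⟩
      · rw [Matrix.IsSymm, Matrix.transpose_neg, hSN1.1.eq]
      · rw [Matrix.det_unique, Matrix.neg_apply, hB]
        exact neg_ne_zero.mpr hc
    have h3 := c2 _ _ _ _ hSN hSN2
    have hSN3 : SN (fromBlocks (gm A (C c)) 0 0 (-B)) := by
      refine ⟨?_, ?_⟩
      · rw [Matrix.IsSymm, Matrix.fromBlocks_transpose, hSN.1.eq, hSN2.1.eq, transpose_zero]
        rfl
      · rw [Matrix.det_fromBlocks_zero₂₁]
        exact mul_ne_zero hSN.2 hSN2.2
    have h4 : cls (fromBlocks (gm A (C c)) 0 0 (-B)) = 0 := by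
      refine c1 _ _ hSN3 ⟨r + 1, ?_, ?_⟩
      · rw [Fintype.card_sum, Fintype.card_fin, Fintype.card_fin, hr]
        ring
      refine ⟨fun i => Sum.elim (Pi.single ⟨i, by omega⟩ 1)
        (fun _ => if (i : ℕ) = r then 1 else 0), ?_, ?_⟩
      · rw [Fintype.linearIndependent_iff]
        intro g hg i
        have h := congrFun hg (Sum.inl ⟨i, by omega⟩)
        rw [Finset.sum_apply, Finset.sum_eq_single i] at h
        · simpa using h
        · intro j _ hj
          rw [Pi.smul_apply, Sum.elim_inl, Pi.single_apply, if_neg, smul_zero]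
          intro h'
          apply hj
          have := congrArg Fin.val h'
          exact Fin.ext this.symm
        · intro h'
          exact absurd (Finset.mem_univ _) h'
      · intro i j
        rw [Matrix.fromBlocks_mulVec]
        simp only [Matrix.zero_mulVec, add_zero, zero_add, Sum.elim_comp_inl, Sum.elim_comp_inr]
        rw [sumElim_dotProduct_sumElim, Matrix.mulVec_single_one, single_one_dotProduct,
          Matrix.col_apply, gm_C hA _ _ _ (by simp only; omega)]
        simp only [dotProduct, Finset.univ_unique, Finset.sum_singleton, Matrix.mulVec,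
          Matrix.neg_apply, hB]
        split_ifs <;> first | omega | ring
    rw [h4, c4 _ _ hSN1, ← hBon, ← sub_eq_add_neg] at h3
    exact sub_eq_zero.mp h3.symm

end Pool.Agent.H15.WT
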