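import Pool.Agent.H63.WT.TA

/-!
# Row SYI: symbols are in the square of the fundamental ideal
-/

set_option autoImplicit false

open Polynomial Matrix Pool.Agent.H32.QC Pool.Agent.H63.WT

namespace Pool.Agent.H15.WT

lemma sn_block {F : Type} [Field F] {ι κ : Type} [Fintype ι] [DecidableEq ι] [Fintype κ]
    [DecidableEq κ] {A : Matrix ι ι F} {B : Matrix κ κ F} (hA : SN A) (hB : SN B) :
    SN (fromBlocks A 0 0 B) := by
  refine ⟨?_, ?_⟩
  · rw [Matrix.IsSymm, Matrix.fromBlocks_transpose, hA.1.eq, hB.1.eq, transpose_zero,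
      transpose_zero]
  · rw [Matrix.det_fromBlocks_zero₂₁]
    exact mul_ne_zero hA.2 hB.2

lemma sn_neg {F : Type} [Field F] {ι : Type} [Fintype ι] [DecidableEq ι] {A : Matrix ι ι F}
    (hA : SN A) : SN (-A) := by
  refine ⟨?_, ?_⟩
  · rw [Matrix.IsSymm, Matrix.transpose_neg, hA.1.eq]
  · rw [Matrix.det_neg]
    exact mul_ne_zero (pow_ne_zero _ (neg_ne_zero.mpr one_ne_zero)) hA.2

theorem pf_SYI (hI2D : T_I2D) (hCLS : T_CLS) (hGDT : T_GDT) : T_SYI := by
  intro F _ h2 A a b hA ha hb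
  obtain ⟨-, g2, g3, g4, -⟩ := hGDT F A hA
  have hsn : ∀ h, IsCoprime A h → SN (gm A h) := fun h hh => ⟨g2 h, (g3 h).mpr hh⟩
  have s1 := hsn 1 isCoprime_one_right
  have sa := hsn a ha
  have sb := hsn b hb
  have sab := hsn (a * b) (ha.mul_right hb)
  obtain ⟨-, c2, -, c4, -⟩ := hCLS F h2
  have h3 : sy A a b = cls (fromBlocks (fromBlocks (gm A 1) 0 0 (-gm A a)) 0 0
      (fromBlocks (-gm A b) 0 0 (gm A (a * b)))) := by
    rw [c2 _ _ _ _ (sn_block s1 (sn_neg sa)) (sn_block (sn_neg sb) sab), c2 _ _ _ _ s1 (sn_neg sa),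
      c2 _ _ _ _ (sn_neg sb) sab, c4 _ _ sa, c4 _ _ sb, sy, S, S, S, S]
    abel
  rw [h3, hI2D F h2 _ _ (2 * A.natDegree)
    (sn_block (sn_block s1 (sn_neg sa)) (sn_block (sn_neg sb) sab))
    (by simp only [Fintype.card_sum, Fintype.card_fin]; ring)]
  rw [Matrix.det_fromBlocks_zero₂₁, Matrix.det_fromBlocks_zero₂₁, Matrix.det_fromBlocks_zero₂₁,
    Matrix.det_neg, Matrix.det_neg, Fintype.card_fin, pow_mul, neg_one_sq, one_pow, one_mul]
  have h4 := g4 a b
  rw [nn, nn, nn] at h4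
  have h5 : (gm A (a * b)).det = (gm A a).det * (gm A b).det * (gm A 1).det := by
    apply mul_right_cancel₀ s1.2
    rw [h4]
    ring
  rw [h5]
  refine ⟨(-1) ^ A.natDegree * (gm A a).det * (gm A b).det * (gm A 1).det, ?_⟩
  ring

end Pool.Agent.H15.WT
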