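import Pool.Agent.H63.WT.TA

/-!
# Row TR: all finite extensions
-/

set_option autoImplicit false

open Polynomial Matrix Pool.Agent.H32.QC Pool.Agent.H63.WT

namespace Pool.Agent.H15.WT

theorem pf_TR (hTRT : T_TRT) (hTRO : T_TRO) (hTRS : T_TRS) (hLAE : T_LAE) : T_TR := by
  intro F E _ _ _ _ hF hE
  have i0 := hE
  have i1 : Algebra.IsAlgebraic F E := Algebra.IsAlgebraic.of_finite F E
  have i2 : IsAlgClosure F (AlgebraicClosure E) :=
    IsAlgClosure.ofAlgebraic F E (AlgebraicClosure E)
  have i3 : Normal F (AlgebraicClosure E) := IsAlgClosure.normal F (AlgebraicClosure E)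
  let Ω : IntermediateField F (AlgebraicClosure E) :=
    IntermediateField.normalClosure F E (AlgebraicClosure E)
  have i4 : FiniteDimensional F Ω := inferInstanceAs
    (FiniteDimensional F (IntermediateField.normalClosure F E (AlgebraicClosure E)))
  have i5 : Normal F Ω := inferInstanceAs
    (Normal F (IntermediateField.normalClosure F E (AlgebraicClosure E)))
  have i6 : IsGalois F Ω := ⟨⟩
  have i7 : Fact (Nat.Prime 2) := ⟨Nat.prime_two⟩
  letI a1 : Algebra E Ω := inferInstanceAs
    (Algebra E (IntermediateField.normalClosure F E (AlgebraicClosure E)))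
  have i8 : IsScalarTower F E Ω := inferInstanceAs
    (IsScalarTower F E (IntermediateField.normalClosure F E (AlgebraicClosure E)))
  have i9 : FiniteDimensional E Ω := Module.Finite.of_restrictScalars_finite F E Ω
  obtain ⟨P⟩ : Nonempty (Sylow 2 (Ω ≃ₐ[F] Ω)) := inferInstance
  let F' : IntermediateField F Ω := IntermediateField.fixedField (P : Subgroup (Ω ≃ₐ[F] Ω))
  have h1 : Module.finrank F' Ω = Nat.card (P : Subgroup (Ω ≃ₐ[F] Ω)) :=
    IntermediateField.finrank_fixedField_eq_card _
  obtain ⟨n, hn⟩ := (IsPGroup.iff_card (p := 2)).mp P.isPGroup'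
  have h3 : Module.finrank F F' * Module.finrank F' Ω = Module.finrank F Ω :=
    Module.finrank_mul_finrank F F' Ω
  have h4 : Nat.card (Ω ≃ₐ[F] Ω) = Module.finrank F Ω := IsGalois.card_aut_eq_finrank F Ω
  have h5 := (P : Subgroup (Ω ≃ₐ[F] Ω)).card_mul_index
  have h6 : Module.finrank F F' = (P : Subgroup (Ω ≃ₐ[F] Ω)).index := by
    rw [h1, ← h4, ← h5, mul_comm] at h3
    exact Nat.eq_of_mul_eq_mul_left Nat.card_pos h3
  have h7 : Odd (Module.finrank F F') := by
    rw [h6, ← Nat.not_even_iff_odd, even_iff_two_dvd]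
    exact P.not_dvd_index
  have h8 : LA F' := hLAE F F' hF inferInstance
  have k1 : KP F F' := hTRO F F' hF inferInstance h7
  have k2 : KP F' Ω := hTRS n F' Ω h8 inferInstance (h1.trans hn)
  have k3 : KP F Ω := (hTRT F F' Ω hF inferInstance inferInstance).mpr ⟨k1, k2⟩
  exact ((hTRT F E Ω hF hE i9).mp k3).1

end Pool.Agent.H15.WT
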