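import Pool.Agent.H63.WT.TA

/-!
# Row TRO: extensions of odd degree
-/

set_option autoImplicit false

open Polynomial Matrix Pool.Agent.H32.QC Pool.Agent.H63.WT

namespace Pool.Agent.H15.WT

/-- the class does not change under a renaming of the indices -/
lemma cls_submatrix (hCLS : T_CLS) {F : Type} [Field F] (h2 : (2 : F) ≠ 0) {ι κ : Type}
    [Fintype ι] [DecidableEq ι] [Fintype κ] [DecidableEq κ] (A : Matrix ι ι F) (e : κ ≃ ι)
    (hA : SN A) : cls (A.submatrix e e) = cls A := by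
  have hUV : (1 : Matrix ι ι F).submatrix id e * (1 : Matrix ι ι F).submatrix e id = 1 := by
    rw [← Matrix.submatrix_mul _ _ _ _ _ e.bijective, one_mul, Matrix.submatrix_id_id]
  have hVU : (1 : Matrix ι ι F).submatrix e id * (1 : Matrix ι ι F).submatrix id e = 1 := by
    rw [← Matrix.submatrix_mul _ _ _ _ _ Function.bijective_id, one_mul,
      Matrix.submatrix_one_equiv]
  have h := ((hCLS F h2).2.2.1 ι κ A _ _ hA hUV hVU).2
  rw [← h]
  congr 1
  rw [Matrix.transpose_submatrix, Matrix.transpose_one]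
  have h3 : (1 : Matrix ι ι F).submatrix e id * A = A.submatrix e id := by
    have := Matrix.submatrix_mul (1 : Matrix ι ι F) A e id id Function.bijective_id
    rw [one_mul] at this
    rw [this, Matrix.submatrix_id_id]
  rw [h3]
  have h4 := Matrix.submatrix_mul A (1 : Matrix ι ι F) e id e Function.bijective_id
  rw [mul_one] at h4
  exact h4

lemma coord_pow {F E : Type} [Field F] [Field E] [Algebra F E] (pb : PowerBasis F E) (k : ℕ)
    (hd : pb.dim - 1 < pb.dim) :
    pb.basis.coord ⟨pb.dim - 1, hd⟩ (pb.gen ^ k) =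
      Pool.Agent.H34.N6.lam (minpoly F pb.gen) (X ^ k) := by
  have hm : (minpoly F pb.gen).Monic := minpoly.monic pb.isIntegral_gen
  have hdim : (minpoly F pb.gen).natDegree = pb.dim := pb.natDegree_minpoly
  have h1 : pb.gen ^ k = aeval pb.gen ((X : F[X]) ^ k %ₘ minpoly F pb.gen) := by
    rw [Polynomial.aeval_modByMonic_eq_self_of_root (minpoly.aeval F pb.gen), map_pow, aeval_X]
  have hlt : ((X : F[X]) ^ k %ₘ minpoly F pb.gen).natDegree < pb.dim := by
    rw [← hdim]
    apply Polynomial.natDegree_modByMonic_lt _ hm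
    intro h
    rw [h, Polynomial.natDegree_one] at hdim
    omega
  rw [h1, Polynomial.aeval_eq_sum_range' hlt, ← Fin.sum_univ_eq_sum_range
    (fun i => ((X : F[X]) ^ k %ₘ minpoly F pb.gen).coeff i • pb.gen ^ i)]
  have h2 : ∑ i : Fin pb.dim, ((X : F[X]) ^ k %ₘ minpoly F pb.gen).coeff (i : ℕ) •
      pb.gen ^ (i : ℕ) = ∑ i : Fin pb.dim,
        ((X : F[X]) ^ k %ₘ minpoly F pb.gen).coeff (i : ℕ) • pb.basis i := by
    refine Finset.sum_congr rfl fun i _ => ?_
    rw [pb.basis_eq_pow]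
  rw [h2, Module.Basis.coord_apply, Module.Basis.repr_sum_self, Pool.Agent.H34.N6.lam, hdim]

theorem pf_TRO (hTRU : T_TRU) (hTRH : T_TRH) (hSEU : T_SEU) (hIV : T_IV) (hPFI : T_PFI)
    (hONE : T_ONE) (hCLS : T_CLS) : T_TRO := by
  intro F E _ _ _ _ hF hE hodd
  have i0 := hE
  have h2 : (2 : F) ≠ 0 := hF.1
  have h2E : (2 : E) ≠ 0 := by
    intro h
    apply h2
    have : algebraMap F E 2 = 0 := by rw [map_ofNat]; exact h
    exact (map_eq_zero _).mp this
  obtain ⟨hNI, hsq⟩ := hF.2 F inferInstance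
  let pb : PowerBasis F E := Field.powerBasisOfFiniteOfSeparable F E
  have hdim : pb.dim = Module.finrank F E := pb.finrank.symm
  have hpos : 0 < pb.dim := by
    rw [hdim]
    exact Module.finrank_pos
  have hdd : pb.dim - 1 < pb.dim := by omega
  let s : E →ₗ[F] F := pb.basis.coord ⟨pb.dim - 1, hdd⟩
  have hs : s ≠ 0 := by
    intro h
    have h1 : s (pb.basis ⟨pb.dim - 1, hdd⟩) = 0 := by rw [h]; rfl
    rw [Module.Basis.coord_apply, Module.Basis.repr_self, Finsupp.single_eq_same] at h1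
    exact one_ne_zero h1
  obtain ⟨f, hf⟩ := hTRH F E h2 pb.dim pb.basis s hs
  have hm : (minpoly F pb.gen).Monic := minpoly.monic pb.isIntegral_gen
  have hmd : (minpoly F pb.gen).natDegree = pb.dim := pb.natDegree_minpoly
  have hon : ∀ c : F, c ≠ 0 → f (on (algebraMap F E c)) = on c := by
    intro c hc
    have hc' : algebraMap F E c ≠ 0 := (_root_.map_ne_zero _).mpr hc
    have hSN : SN (fun _ _ : Fin 1 => algebraMap F E c : Matrix (Fin 1) (Fin 1) E) := by
      refine ⟨?_, ?_⟩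
      · ext i j
        rfl
      · simpa [Matrix.det_unique] using hc'
    obtain ⟨h3, h4⟩ := hf _ _ hSN
    have h5 : S (minpoly F pb.gen) (C c) = on c := by
      rw [hSEU F h2 _ c hm hc, if_neg]
      rw [hmd, hdim]
      exact Nat.not_even_iff_odd.mpr hodd
    rw [on, h4, ← h5, S]
    let e : Fin (minpoly F pb.gen).natDegree ≃ Fin 1 × Fin pb.dim :=
      (finCongr hmd).trans (Equiv.uniqueProd (Fin pb.dim) (Fin 1)).symm
    rw [← cls_submatrix hCLS h2 _ e h3]
    congr 1
    ext i j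
    have h6 : ∀ k, (e k).2 = Fin.cast hmd k := fun k => rfl
    simp only [Matrix.submatrix_apply, trm, gm, h6, pb.basis_eq_pow, Fin.val_cast]
    rw [← pow_add, ← Algebra.smul_def, map_smul]
    have h7 := coord_pow pb ((i : ℕ) + (j : ℕ)) hdd
    change c • (pb.basis.coord ⟨pb.dim - 1, hdd⟩ (pb.gen ^ ((i : ℕ) + (j : ℕ)))) = _
    rw [h7, Pool.Agent.H34.N6.lam, Pool.Agent.H34.N6.lam, ← Polynomial.smul_eq_C_mul,
      Polynomial.smul_modByMonic, Polynomial.coeff_smul]
  obtain ⟨x, hx, hx0⟩ := (hIV F h2 hNI hsq).2.2.1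
  obtain ⟨a, b, ha, hb, hab⟩ := (hIV F h2 hNI hsq).2.2.2 x hx
  have ha' : algebraMap F E a ≠ 0 := (_root_.map_ne_zero _).mpr ha
  have hb' : algebraMap F E b ≠ 0 := (_root_.map_ne_zero _).mpr hb
  refine hTRU F E hF ⟨pb.dim, pb.basis, s, f, pf (algebraMap F E a) (algebraMap F E b), hs, hf,
    (hPFI E h2E _ _ ha' hb').1, ?_⟩
  rw [pf, map_add, map_sub, map_sub, hon a ha, hon b hb, ← map_mul, hon _ (mul_ne_zero ha hb)]
  have h1 : f (on (1 : E)) = on (1 : F) := by
    have := hon 1 one_ne_zero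
    rwa [map_one] at this
  rw [h1]
  rw [hab, pf] at hx0
  exact hx0

end Pool.Agent.H15.WT
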