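import Pool.Agent.H63.WT.TA

/-!
# Row TRS: Galois extensions of degree a power of two
-/

set_option autoImplicit false

open Polynomial Matrix Pool.Agent.H32.QC Pool.Agent.H63.WT

namespace Pool.Agent.H15.WT

theorem pf_TRS (hTRT : T_TRT) (hTR2 : T_TR2) (hTRO : T_TRO) (hLAE : T_LAE) : T_TRS := by
  intro n
  induction n with
  | zero =>
    intro F E _ _ _ _ hF hG hd
    have i0 : FiniteDimensional F E := Module.finite_of_finrank_pos (by rw [hd]; norm_num)
    exact hTRO F E hF i0 (by rw [hd]; exact odd_one)
  | succ n ih =>
    intro F E _ _ _ _ hF hG hd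
    have i0 : FiniteDimensional F E :=
      Module.finite_of_finrank_pos (by rw [hd]; positivity)
    have i1 := hG
    have i7 : Fact (Nat.Prime 2) := ⟨Nat.prime_two⟩
    have h4 : Nat.card (E ≃ₐ[F] E) = Module.finrank F E := IsGalois.card_aut_eq_finrank F E
    obtain ⟨H, hH⟩ := Sylow.exists_subgroup_card_pow_prime (G := E ≃ₐ[F] E) 2 (n := n)
      (by rw [h4, hd]; exact pow_dvd_pow 2 (Nat.le_succ n))
    let F' : IntermediateField F E := IntermediateField.fixedField H
    have h1 : Module.finrank F' E = Nat.card H :=
      IntermediateField.finrank_fixedField_eq_card _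
    have h3 : Module.finrank F F' * Module.finrank F' E = Module.finrank F E :=
      Module.finrank_mul_finrank F F' E
    have h2 : Module.finrank F F' = 2 := by
      rw [h1, hH, hd, pow_succ, mul_comm] at h3
      exact Nat.eq_of_mul_eq_mul_left (by positivity) h3
    have h8 : LA F' := hLAE F F' hF inferInstance
    have k1 : KP F F' := hTR2 F F' hF h2
    have k2 : KP F' E := ih F' E h8 inferInstance (h1.trans hH)
    exact (hTRT F F' E hF inferInstance inferInstance).mpr ⟨k1, k2⟩

end Pool.Agent.H15.WT
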