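import Pool.Agent.H15.WT.TRO

/-!
# Row TRT: transfers in towers
-/

set_option autoImplicit false

open Polynomial Matrix Pool.Agent.H32.QC Pool.Agent.H63.WT

namespace Pool.Agent.H15.WT

theorem pf_TRT (hTRU : T_TRU) (hTRI : T_TRI) (hTRH : T_TRH) (hIV : T_IV) (hLAE : T_LAE)
    (hCLS : T_CLS) : T_TRT := by
  intro F E K _ _ _ _ _ _ _ hF hE hK
  have i1 := hE
  have i2 := hK
  have i3 : FiniteDimensional F K := Module.Finite.trans E K
  have h2 : (2 : F) ≠ 0 := hF.1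
  have hLE : LA E := hLAE F E hF hE
  have h2E : (2 : E) ≠ 0 := hLE.1
  obtain ⟨hNI, hsq⟩ := hF.2 K i3
  have h2K : (2 : K) ≠ 0 := by
    intro h
    apply h2
    have : algebraMap F K 2 = 0 := by rw [map_ofNat]; exact h
    exact (map_eq_zero _).mp this
  obtain ⟨d1, hd1⟩ : ∃ d, d = Module.finrank F E := ⟨_, rfl⟩
  obtain ⟨d2, hd2⟩ : ∃ d, d = Module.finrank E K := ⟨_, rfl⟩
  have hd1p : 0 < d1 := by rw [hd1]; exact Module.finrank_pos
  have hd2p : 0 < d2 := by rw [hd2]; exact Module.finrank_pos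
  let b1 : Module.Basis (Fin d1) F E := Module.finBasisOfFinrankEq F E hd1.symm
  let b2 : Module.Basis (Fin d2) E K := Module.finBasisOfFinrankEq E K hd2.symm
  let s1 : E →ₗ[F] F := b1.coord ⟨0, hd1p⟩
  let s2 : K →ₗ[E] E := b2.coord ⟨0, hd2p⟩
  have hs1v : s1 (b1 ⟨0, hd1p⟩) = 1 := by
    show b1.coord ⟨0, hd1p⟩ (b1 ⟨0, hd1p⟩) = 1
    rw [Module.Basis.coord_apply, Module.Basis.repr_self, Finsupp.single_eq_same]
  have hs2v : s2 (b2 ⟨0, hd2p⟩) = 1 := by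
    show b2.coord ⟨0, hd2p⟩ (b2 ⟨0, hd2p⟩) = 1
    rw [Module.Basis.coord_apply, Module.Basis.repr_self, Finsupp.single_eq_same]
  have hs1 : s1 ≠ 0 := by
    intro h
    rw [h] at hs1v
    exact zero_ne_one hs1v
  have hs2 : s2 ≠ 0 := by
    intro h
    rw [h] at hs2v
    exact zero_ne_one hs2v
  let s : K →ₗ[F] F := s1.comp (s2.restrictScalars F)
  have hsap : ∀ x, s x = s1 (s2 x) := fun x => rfl
  have hs : s ≠ 0 := by
    intro h
    have h3 : s (b1 ⟨0, hd1p⟩ • b2 ⟨0, hd2p⟩) = 1 := by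
      rw [hsap, map_smul, hs2v, smul_eq_mul, mul_one, hs1v]
    rw [h] at h3
    exact zero_ne_one h3
  let b : Module.Basis (Fin (d1 * d2)) F K := (b1.smulTower b2).reindex finProdFinEquiv
  have hb : ∀ l j, b (finProdFinEquiv (l, j)) = b1 l • b2 j := by
    intro l j
    show ((b1.smulTower b2).reindex finProdFinEquiv) (finProdFinEquiv (l, j)) = b1 l • b2 j
    rw [Module.Basis.reindex_apply, Equiv.symm_apply_apply, Module.Basis.smulTower_apply]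
  obtain ⟨f1, hf1⟩ := hTRH F E h2 d1 b1 s1 hs1
  obtain ⟨f2, hf2⟩ := hTRH E K h2E d2 b2 s2 hs2
  obtain ⟨f, hf⟩ := hTRH F K h2 (d1 * d2) b s hs
  have hcomp : ∀ x, f x = f1 (f2 x) := by
    intro x
    obtain ⟨n, A, hA, rfl⟩ := (hCLS K h2K).2.2.2.2 x
    obtain ⟨g1, g2⟩ := hf _ A hA
    obtain ⟨g3, g4⟩ := hf2 _ A hA
    obtain ⟨g5, g6⟩ := hf1 _ _ g3
    rw [g2, g4, g6]
    let e : (Fin n × Fin d2) × Fin d1 ≃ Fin n × Fin (d1 * d2) :=
      (Equiv.prodAssoc _ _ _).trans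
        (Equiv.prodCongr (Equiv.refl _) ((Equiv.prodComm _ _).trans finProdFinEquiv))
    have he : ∀ i j l, e ((i, j), l) = (i, finProdFinEquiv (l, j)) := fun i j l => rfl
    rw [← cls_submatrix hCLS h2 _ e g1]
    congr 1
    ext ⟨⟨i, j⟩, l⟩ ⟨⟨i', j'⟩, l'⟩
    simp only [Matrix.submatrix_apply, trm, he]
    rw [hb, hb, hsap]
    congr 1
    have h3 : A i i' * (b1 l • b2 j * b1 l' • b2 j') =
        (b1 l * b1 l') • (A i i' * (b2 j * b2 j')) := by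
      simp only [Algebra.smul_def, map_mul]
      ring
    rw [h3, map_smul, smul_eq_mul, mul_comm]
  obtain ⟨v, hv, hv0⟩ := (hIV K h2K hNI hsq).2.2.1
  have hI2 : I2 (f2 v) := hTRI E K hLE d2 b2 s2 f2 hs2 hf2 v hv
  constructor
  · intro hKP
    have h3 : f v ≠ 0 := fun h => hv0 (hKP _ b s f hs hf v hv h)
    rw [hcomp] at h3
    have h4 : f2 v ≠ 0 := by
      intro h
      rw [h, map_zero] at h3
      exact h3 rfl
    exact ⟨hTRU F E hF ⟨d1, b1, s1, f1, f2 v, hs1, hf1, hI2, h3⟩,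
      hTRU E K hLE ⟨d2, b2, s2, f2, v, hs2, hf2, hv, h4⟩⟩
  · rintro ⟨k1, k2⟩
    have h4 : f2 v ≠ 0 := fun h => hv0 (k2 _ b2 s2 f2 hs2 hf2 v hv h)
    have h3 : f1 (f2 v) ≠ 0 := fun h => h4 (k1 _ b1 s1 f1 hs1 hf1 _ hI2 h)
    refine hTRU F K hF ⟨_, b, s, f, v, hs, hf, hv, ?_⟩
    rw [hcomp]
    exact h3

end Pool.Agent.H15.WT
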